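import Pool.Agent.PolD.ConsC
import Mathlib.Combinatorics.SimpleGraph.Extremal.ErdosStoneSimonovits

/-! MP_c6d19f_nt (helper78): in every large finite set `S` of natural numbers at least a third of the pairs `x < y` are such
that `x² + x + A` and `y² + y + A` are consecutive primes for infinitely many `A`. -/

set_option autoImplicit false

namespace Pool.Agent.Lsp

open Finset Filter Pool.Agent.SL Pool.Agent.PolD

/-- `x² + x + A` and `y² + y + A` are consecutive primes for infinitely many `A` -/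
def Gd (x y : ℕ) : Prop :=
  {A : ℕ | ∃ n, x ^ 2 + x + A = Nat.nth Nat.Prime n ∧ y ^ 2 + y + A = Nat.nth Nat.Prime (n + 1)}.Infinite

/-- the numbers `x² + x` leave out a class modulo every prime -/
theorem adm (p : ℕ) (hp : p.Prime) : ∃ n : ℕ, ∀ x : ℕ, ¬ (p : ℤ) ∣ n + ((x : ℤ) ^ 2 + x) := by
  haveI := Fact.mk hp
  have hni : ¬ Function.Injective (fun x : ZMod p => x ^ 2 + x) := by
    intro h
    have h1 : (0 : ZMod p) = -1 := h (by simp)
    have h2 : (1 : ZMod p) = 0 := by linear_combination h1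
    exact one_ne_zero h2
  have hns : ¬ Function.Surjective (fun x : ZMod p => x ^ 2 + x) := fun h =>
    hni (Finite.injective_iff_surjective.2 h)
  obtain ⟨c, hc⟩ := not_forall.1 hns
  refine ⟨(-c).val, fun x hd => hc ⟨(x : ZMod p), ?_⟩⟩
  have h1 : ((((-c).val : ℕ) + ((x : ℤ) ^ 2 + x) : ℤ) : ZMod p) = 0 := (ZMod.intCast_zmod_eq_zero_iff_dvd _ _).2 hd
  push_cast at h1
  rw [ZMod.natCast_zmod_val] at h1
  show (x : ZMod p) ^ 2 + (x : ZMod p) = c
  linear_combination h1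

theorem hx_lt {x y : ℕ} (h : ((x : ℤ) ^ 2 + x) < (y : ℤ) ^ 2 + y) : x < y := by
  by_contra hc
  push Not at hc
  have h1 : y ^ 2 + y ≤ x ^ 2 + x := by nlinarith
  have h2 : ((y : ℤ) ^ 2 + y) ≤ (x : ℤ) ^ 2 + x := by exact_mod_cast h1
  omega

theorem gd_of_cg (x y : ℕ) (hxy : ((x : ℤ) ^ 2 + x) < (y : ℤ) ^ 2 + y)
    (h : CG 1 0 (((y : ℤ) ^ 2 + y) - ((x : ℤ) ^ 2 + x)).toNat) : Gd x y := by
  obtain ⟨a, ha⟩ : ∃ a, a = (((y : ℤ) ^ 2 + y) - ((x : ℤ) ^ 2 + x)).toNat := ⟨_, rfl⟩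
  have ha1 : (a : ℤ) = ((y : ℤ) ^ 2 + y) - ((x : ℤ) ^ 2 + x) := by omega
  have ha2 : y ^ 2 + y = x ^ 2 + x + a := by
    have : ((y ^ 2 + y : ℕ) : ℤ) = ((x ^ 2 + x + a : ℕ) : ℤ) := by push_cast; omega
    exact_mod_cast this
  rw [← ha] at h
  have h1 := cg_nth 1 0 a (by omega) h
  have hmono : StrictMono (Nat.nth Nat.Prime) := Nat.nth_strictMono Nat.infinite_setOfPred_prime
  have h2 : ({n : ℕ | Nat.nth Nat.Prime n ≡ 0 [MOD 1] ∧ Nat.nth Nat.Prime (n + 1) = Nat.nth Nat.Prime n + a} \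
      {n : ℕ | n < x ^ 2 + x}).Infinite := h1.sdiff (Set.finite_lt_nat _)
  have h3 : Set.InjOn (fun n => Nat.nth Nat.Prime n - (x ^ 2 + x))
      ({n : ℕ | Nat.nth Nat.Prime n ≡ 0 [MOD 1] ∧ Nat.nth Nat.Prime (n + 1) = Nat.nth Nat.Prime n + a} \
      {n : ℕ | n < x ^ 2 + x}) := by
    intro n hn m hm hnm
    have h4 : x ^ 2 + x ≤ n := not_lt.1 hn.2
    have h5 : x ^ 2 + x ≤ m := not_lt.1 hm.2
    have h6 : n ≤ Nat.nth Nat.Prime n := hmono.le_apply
    have h7 : m ≤ Nat.nth Nat.Prime m := hmono.le_apply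
    have h8 : Nat.nth Nat.Prime n - (x ^ 2 + x) = Nat.nth Nat.Prime m - (x ^ 2 + x) := hnm
    exact hmono.injective (by omega)
  refine Set.Infinite.mono ?_ (h2.image h3)
  rintro A ⟨n, ⟨⟨-, hn⟩, hn2⟩, rfl⟩
  have h4 : x ^ 2 + x ≤ n := not_lt.1 hn2
  have h6 : n ≤ Nat.nth Nat.Prime n := hmono.le_apply
  refine ⟨n, ?_, ?_⟩
  · show x ^ 2 + x + (Nat.nth Nat.Prime n - (x ^ 2 + x)) = Nat.nth Nat.Prime n
    omega
  · show y ^ 2 + y + (Nat.nth Nat.Prime n - (x ^ 2 + x)) = Nat.nth Nat.Prime (n + 1)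
    omega

/-- symmetric version -/
def Gs (x y : ℕ) : Prop := Gd (min x y) (max x y)

theorem gs_comm (x y : ℕ) : Gs x y ↔ Gs y x := by
  unfold Gs
  rw [min_comm, max_comm]

/-- the bad graph on a finite enumerated set -/
def BG {n : ℕ} (e : Fin n → ℕ) : SimpleGraph (Fin n) where
  Adj i j := i ≠ j ∧ ¬ Gs (e i) (e j)
  symm := ⟨fun i j h => ⟨h.1.symm, fun hh => h.2 ((gs_comm _ _).1 hh)⟩⟩
  loopless := ⟨fun i h => h.1 rfl⟩

/-- no four groups in the bad graph -/
theorem no_four (k : ℕ) (hk : 1 ≤ k) (hD : DHLG 4 (4 * k)) {n : ℕ} (e : Fin n → ℕ) (he : Function.Injective e) :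
    ¬ (SimpleGraph.completeEquipartiteGraph 4 k).IsContained (BG e) := by
  rintro ⟨f⟩
  have hk0 : ∀ g, g % 4 < 4 := fun g => Nat.mod_lt _ (by norm_num)
  have hk1 : ∀ i, i % k < k := fun i => Nat.mod_lt _ hk
  let X : ℕ → ℕ → ℕ := fun g i => e (f (⟨g % 4, hk0 g⟩, ⟨i % k, hk1 i⟩))
  have hX : ∀ g < 4, ∀ i < k, ∀ g' < 4, ∀ i' < k, X g i = X g' i' → g = g' ∧ i = i' := by
    intro g hg i hi g' hg' i' hi' h
    have h1 := f.injective (he h)
    rw [Prod.ext_iff] at h1
    have h2 : g % 4 = g' % 4 := congrArg Fin.val h1.1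
    have h3 : i % k = i' % k := congrArg Fin.val h1.2
    rw [Nat.mod_eq_of_lt hg, Nat.mod_eq_of_lt hg'] at h2
    rw [Nat.mod_eq_of_lt hi, Nat.mod_eq_of_lt hi'] at h3
    exact ⟨h2, h3⟩
  obtain ⟨g, hg, g', hg', hne, i, hi, i', hi', hlt, hC⟩ := cons_cluster 4 k hk (by norm_num) hD 1 0 (by norm_num)
    (by norm_num) (fun g i => ((X g i : ℕ) : ℤ) ^ 2 + (X g i : ℕ))
    (fun g hg i hi g' hg' i' hi' h => by
      refine hX g hg i hi g' hg' i' hi' ?_
      rcases lt_trichotomy (X g i) (X g' i') with h1 | h1 | h1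
      · exfalso
        have h2 : (X g i) ^ 2 + X g i < (X g' i') ^ 2 + X g' i' := by nlinarith
        have h3 : ((X g i : ℕ) : ℤ) ^ 2 + (X g i : ℕ) < ((X g' i' : ℕ) : ℤ) ^ 2 + (X g' i' : ℕ) := by exact_mod_cast h2
        exact absurd h (ne_of_lt h3)
      · exact h1
      · exfalso
        have h2 : (X g' i') ^ 2 + X g' i' < (X g i) ^ 2 + X g i := by nlinarith
        have h3 : ((X g' i' : ℕ) : ℤ) ^ 2 + (X g' i' : ℕ) < ((X g i : ℕ) : ℤ) ^ 2 + (X g i : ℕ) := by exact_mod_cast h2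
        exact absurd h (ne_of_gt h3))
    (fun g _ i _ => Int.modEq_one)
    (fun p hp => by
      obtain ⟨n, hn⟩ := adm p hp
      exact ⟨n, fun g _ i _ => hn (X g i)⟩)
  have hlt' : X g i < X g' i' := hx_lt hlt
  have hG : Gd (X g i) (X g' i') := gd_of_cg _ _ hlt hC
  have hA : (BG e).Adj (f (⟨g % 4, hk0 g⟩, ⟨i % k, hk1 i⟩)) (f (⟨g' % 4, hk0 g'⟩, ⟨i' % k, hk1 i'⟩)) := by
    refine f.toHom.map_adj ?_
    rw [SimpleGraph.completeEquipartiteGraph_adj]
    intro h
    have h1 : g % 4 = g' % 4 := congrArg Fin.val h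
    rw [Nat.mod_eq_of_lt hg, Nat.mod_eq_of_lt hg'] at h1
    exact hne h1
  refine hA.2 ?_
  show Gd (min (X g i) (X g' i')) (max (X g i) (X g' i'))
  rw [min_eq_left hlt'.le, max_eq_right hlt'.le]
  exact hG

open Classical in
/-- some element of a large set has many good partners -/
theorem deg (k : ℕ) (hk : 1 ≤ k) (hD : DHLG 4 (4 * k)) (ε : ℝ) (hε : 0 < ε) :
    ∃ N : ℕ, ∀ S : Finset ℕ, N ≤ S.card → S.Nonempty →
      ∃ v ∈ S, (1 / 3 - ε) * S.card - 1 ≤ (((S.erase v).filter fun w => Gs v w).card : ℝ) := by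
  obtain ⟨N, hN⟩ := eventually_atTop.1 (SimpleGraph.eventually_completeEquipartiteGraph_isContained_of_minDegree hε 3 k)
  refine ⟨N, fun S hS hne => ?_⟩
  set n := S.card with hn
  let e : Fin n → ℕ := fun i => ((S.equivFin.symm i : S) : ℕ)
  have he : Function.Injective e := fun i j h => S.equivFin.symm.injective (Subtype.ext h)
  have heS : ∀ i, e i ∈ S := fun i => (S.equivFin.symm i).2
  have heT : ∀ w ∈ S, ∃ i, e i = w := fun w hw => ⟨S.equivFin ⟨w, hw⟩, by simp [e]⟩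
  have h1 : ¬ (BG e).minDegree ≥ (1 - 1 / (3 : ℕ) + ε) * (n : ℝ) := fun h => no_four k hk hD e he (hN n hS h)
  have hpos : 0 < n := Finset.card_pos.2 hne
  haveI : Nonempty (Fin n) := ⟨⟨0, hpos⟩⟩
  obtain ⟨v, hv⟩ := (BG e).exists_minimal_degree_vertex
  refine ⟨e v, heS v, ?_⟩
  have h2 : ((BG e).degree v : ℝ) < (1 - 1 / (3 : ℕ) + ε) * (n : ℝ) := by
    rw [← hv]
    exact not_le.1 h1
  have h3 : ((S.erase (e v)).filter fun w => ¬ Gs (e v) w).card ≤ (BG e).degree v := by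
    rw [← SimpleGraph.card_neighborFinset_eq_degree]
    rw [← Finset.card_image_of_injective ((BG e).neighborFinset v) he]
    refine Finset.card_le_card fun w hw => ?_
    rw [Finset.mem_filter, Finset.mem_erase] at hw
    obtain ⟨i, rfl⟩ := heT w hw.1.2
    rw [Finset.mem_image]
    refine ⟨i, ?_, rfl⟩
    rw [SimpleGraph.mem_neighborFinset]
    exact ⟨fun h => hw.1.1 (by rw [h]), hw.2⟩
  have h4 : ((S.erase (e v)).filter fun w => Gs (e v) w).card + ((S.erase (e v)).filter fun w => ¬ Gs (e v) w).card =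
      n - 1 := by
    rw [Finset.card_filter_add_card_filter_not, Finset.card_erase_of_mem (heS v)]
  have h5 : (((S.erase (e v)).filter fun w => Gs (e v) w).card : ℝ) +
      (((S.erase (e v)).filter fun w => ¬ Gs (e v) w).card : ℝ) = n - 1 := by
    have : (((S.erase (e v)).filter fun w => Gs (e v) w).card + ((S.erase (e v)).filter fun w => ¬ Gs (e v) w).card) + 1 =
      n := by omega
    have h6 : ((((S.erase (e v)).filter fun w => Gs (e v) w).card +
      ((S.erase (e v)).filter fun w => ¬ Gs (e v) w).card + 1 : ℕ) : ℝ) = n := by rw [this]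
    push_cast at h6
    linarith
  have h6 : (((S.erase (e v)).filter fun w => ¬ Gs (e v) w).card : ℝ) ≤ ((BG e).degree v : ℝ) := by exact_mod_cast h3
  push_cast at h2
  linarith

open Classical in
/-- the good pairs of a set -/
noncomputable def gp (S : Finset ℕ) : Finset (ℕ × ℕ) := (S ×ˢ S).filter fun z => z.1 < z.2 ∧ Gd z.1 z.2

open Classical in
theorem mem_gp (S : Finset ℕ) (z : ℕ × ℕ) : z ∈ gp S ↔ z.1 ∈ S ∧ z.2 ∈ S ∧ z.1 < z.2 ∧ Gd z.1 z.2 := by
  rw [gp, Finset.mem_filter, Finset.mem_product]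
  exact and_assoc

open Classical in
theorem gp_erase (S : Finset ℕ) (v : ℕ) (hv : v ∈ S) :
    (gp (S.erase v)).card + ((S.erase v).filter fun w => Gs v w).card ≤ (gp S).card := by
  have h1 : Disjoint (gp (S.erase v)) (((S.erase v).filter fun w => Gs v w).image fun w => (min v w, max v w)) := by
    rw [Finset.disjoint_left]
    intro z hz hz'
    rw [gp, Finset.mem_filter, Finset.mem_product] at hz
    rw [Finset.mem_image] at hz'
    obtain ⟨w, hw, rfl⟩ := hz'
    have h2 := (Finset.mem_erase.1 hz.1.1).1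
    have h3 := (Finset.mem_erase.1 hz.1.2).1
    rcases le_total v w with h | h
    · exact h2 (min_eq_left h)
    · exact h3 (max_eq_left h)
  have h2 : (((S.erase v).filter fun w => Gs v w).image fun w => (min v w, max v w)).card =
      ((S.erase v).filter fun w => Gs v w).card := by
    refine Finset.card_image_of_injOn ?_
    intro w hw w' hw' h
    have hwv := (Finset.mem_erase.1 (Finset.mem_filter.1 hw).1).1
    have hwv' := (Finset.mem_erase.1 (Finset.mem_filter.1 hw').1).1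
    have h3 : min v w = min v w' := congrArg Prod.fst h
    have h4 : max v w = max v w' := congrArg Prod.snd h
    omega
  rw [← h2, ← Finset.card_union_of_disjoint h1]
  refine Finset.card_le_card fun z hz => ?_
  rw [Finset.mem_union] at hz
  rcases hz with hz | hz
  · rw [gp, Finset.mem_filter, Finset.mem_product] at hz ⊢
    exact ⟨⟨Finset.mem_of_mem_erase hz.1.1, Finset.mem_of_mem_erase hz.1.2⟩, hz.2⟩
  · rw [Finset.mem_image] at hz
    obtain ⟨w, hw, rfl⟩ := hz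
    rw [Finset.mem_filter, Finset.mem_erase] at hw
    rw [gp, Finset.mem_filter, Finset.mem_product]
    refine ⟨⟨?_, ?_⟩, ?_, hw.2⟩
    · show min v w ∈ S
      rcases le_total v w with h | h
      · rwa [min_eq_left h]
      · rw [min_eq_right h]; exact hw.1.2
    · show max v w ∈ S
      rcases le_total v w with h | h
      · rw [max_eq_right h]; exact hw.1.2
      · rwa [max_eq_left h]
    · show min v w < max v w
      have := hw.1.1
      omega

theorem main (k : ℕ) (hk : 1 ≤ k) (hD : DHLG 4 (4 * k)) (ε : ℝ) (hε : 0 < ε) :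
    ∃ N : ℕ, ∀ S : Finset ℕ, N ≤ S.card → (1 / 3 - ε) * (S.card : ℝ) ^ 2 / 2 ≤ ((gp S).card : ℝ) := by
  classical
  obtain ⟨N, hN⟩ := deg k hk hD (ε / 2) (by linarith)
  -- `c = 1/3 - ε/2`
  have key : ∀ n : ℕ, ∀ S : Finset ℕ, S.card = n →
      (1 / 3 - ε / 2) * ((n : ℝ) ^ 2 - (N : ℝ) ^ 2) / 2 - n ≤ ((gp S).card : ℝ) ∨ 1 / 3 - ε / 2 < 0 := by
    intro n
    induction n with
    | zero =>
      intro S _
      by_cases hc : 1 / 3 - ε / 2 < 0
      · exact Or.inr hc
      · left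
        have h1 : (0 : ℝ) ≤ (gp S).card := Nat.cast_nonneg _
        have h2 : 0 ≤ (1 / 3 - ε / 2) * (N : ℝ) ^ 2 := mul_nonneg (not_lt.1 hc) (by positivity)
        push_cast
        nlinarith
    | succ n ih =>
      intro S hS
      by_cases hc : 1 / 3 - ε / 2 < 0
      · exact Or.inr hc
      · left
        by_cases hNn : N ≤ n + 1
        · obtain ⟨v, hv, h1⟩ := hN S (by rw [hS]; exact hNn) (Finset.card_pos.1 (by omega))
          have h2 := gp_erase S v hv
          rcases ih (S.erase v) (by rw [Finset.card_erase_of_mem hv]; omega) with h3 | h3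
          · have h4 : ((gp (S.erase v)).card : ℝ) + (((S.erase v).filter fun w => Gs v w).card : ℝ) ≤ (gp S).card := by
              exact_mod_cast h2
            rw [hS] at h1
            push_cast at h1 ⊢
            nlinarith
          · exact absurd h3 hc
        · have h1 : (0 : ℝ) ≤ (gp S).card := Nat.cast_nonneg _
          have h2 : ((n : ℝ) + 1) ≤ N := by exact_mod_cast (by omega : n + 1 ≤ N)
          have h3 : ((n : ℝ) + 1) ^ 2 - (N : ℝ) ^ 2 ≤ 0 := by nlinarith [(Nat.cast_nonneg n : (0 : ℝ) ≤ n)]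
          have h4 : (1 / 3 - ε / 2) * (((n : ℝ) + 1) ^ 2 - (N : ℝ) ^ 2) ≤ 0 :=
            mul_nonpos_of_nonneg_of_nonpos (not_lt.1 hc) h3
          push_cast
          have h5 : (0 : ℝ) ≤ n := Nat.cast_nonneg n
          linarith
  obtain ⟨N', hN'⟩ := exists_nat_ge (2 * (N : ℝ) ^ 2 / ε + 8 / ε + N)
  refine ⟨N' + 1, fun S hS => ?_⟩
  have hn1 : ((N' : ℝ) + 1) ≤ S.card := by exact_mod_cast hS
  have h0 : (0 : ℝ) ≤ (gp S).card := Nat.cast_nonneg _
  rcases key S.card S rfl with h1 | h1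
  · by_cases hc : 1 / 3 - ε / 2 < 0
    · have : (1 / 3 - ε) * (S.card : ℝ) ^ 2 / 2 ≤ 0 := by
        have : 1 / 3 - ε < 0 := by linarith
        have h2 : (0 : ℝ) ≤ (S.card : ℝ) ^ 2 := by positivity
        nlinarith
      linarith
    · refine le_trans ?_ h1
      have h2 : (0 : ℝ) ≤ 2 * (N : ℝ) ^ 2 / ε := by positivity
      have h3 : (0 : ℝ) ≤ 8 / ε := by positivity
      have h4 : 8 / ε ≤ (S.card : ℝ) := by
        have := (Nat.cast_nonneg N : (0 : ℝ) ≤ N)
        linarith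
      have h5 : 2 * (N : ℝ) ^ 2 / ε ≤ (S.card : ℝ) := by
        have := (Nat.cast_nonneg N : (0 : ℝ) ≤ N)
        linarith
      have h6 : 8 ≤ (S.card : ℝ) * ε := by rwa [div_le_iff₀ hε] at h4
      have h7 : 2 * (N : ℝ) ^ 2 ≤ (S.card : ℝ) * ε := by rwa [div_le_iff₀ hε] at h5
      have h8 : (1 : ℝ) ≤ S.card := by
        have := (Nat.cast_nonneg N' : (0 : ℝ) ≤ N')
        linarith
      have h9 : (1 / 3 - ε / 2) * (N : ℝ) ^ 2 ≤ 1 / 3 * (N : ℝ) ^ 2 :=
        mul_le_mul_of_nonneg_right (by linarith) (by positivity)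
      have h10 : 8 * (S.card : ℝ) ≤ (S.card : ℝ) * ε * S.card := by nlinarith
      have h11 : (S.card : ℝ) * ε ≤ (S.card : ℝ) * ε * S.card := by nlinarith [mul_nonneg (le_trans zero_le_one h8) hε.le]
      nlinarith
  · have : (1 / 3 - ε) * (S.card : ℝ) ^ 2 / 2 ≤ 0 := by
      have h2 : (0 : ℝ) ≤ (S.card : ℝ) ^ 2 := by positivity
      nlinarith
    linarith

end Pool.Agent.Lsp
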